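import Mathlib
import Pool.Agent.Helper17.SO.Stmts

/-!
Module TSET of the crew project on MP_c38931_co: the set of the first `I` prime factors.
-/

set_option autoImplicit false

open Finset

namespace Pool.Agent.Helper17.SO

/-- initial segments of a finite set of natural numbers -/
theorem tset_init (G : Finset ℕ) (I : ℕ) : ∃ T : Finset ℕ, T ⊆ G ∧ T.card ≤ I ∧
    (∀ x ∈ G, ∀ y ∈ T, x ≤ y → x ∈ T) ∧ (T.card < I → T = G) := by
  induction I with
  | zero => exact ⟨∅, by simp, by simp, by simp, by simp⟩
  | succ I ih =>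
    obtain ⟨T, h1, h2, h3, h4⟩ := ih
    by_cases hG : T = G
    · exact ⟨T, h1, by omega, h3, fun _ => hG⟩
    · have hc : T.card = I := by
        rcases lt_or_eq_of_le h2 with h | h
        · exact absurd (h4 h) hG
        · exact h
      have hne : (G \ T).Nonempty := by
        rw [Finset.sdiff_nonempty]
        intro h
        exact hG (Finset.Subset.antisymm h1 h)
      have hm := Finset.min'_mem _ hne
      obtain ⟨hmG, hmT⟩ := Finset.mem_sdiff.mp hm
      refine ⟨insert ((G \ T).min' hne) T, ?_, ?_, ?_, ?_⟩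
      · intro x hx
        rcases Finset.mem_insert.mp hx with rfl | hx
        · exact hmG
        · exact h1 hx
      · rw [Finset.card_insert_of_notMem hmT]
        omega
      · intro x hx y hy hxy
        rw [Finset.mem_insert]
        by_cases hxT : x ∈ T
        · exact Or.inr hxT
        · left
          rcases Finset.mem_insert.mp hy with rfl | hy
          · exact le_antisymm hxy (Finset.min'_le _ _ (Finset.mem_sdiff.mpr ⟨hx, hxT⟩))
          · exact absurd (h3 x hx y hy hxy) hxT
      · intro h
        rw [Finset.card_insert_of_notMem hmT] at h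
        omega

theorem st_TSET : ST_TSET := by
  classical
  intro lam w z I k hI
  obtain ⟨T, h1, h2, h3, h4⟩ := tset_init ((PP w z).filter fun q => FD lam q k) I
  refine ⟨T, fun x hx => (Finset.mem_filter.mp (h1 hx)).1, h2,
    fun q hq => (Finset.mem_filter.mp (h1 hq)).2, ?_⟩
  intro l hl hFD
  by_cases hc : T.card = I
  · have hne : T.Nonempty := by
      rw [← Finset.card_pos]
      omega
    obtain ⟨y, hy, hyT⟩ := Finset.exists_mem_eq_sup T hne id
    rw [yT, if_pos hc, hyT, id] at hl
    have hyz := (Finset.mem_filter.mp (h1 hy)).1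
    rw [PP, Finset.mem_filter, Finset.mem_Ioc] at hl hyz
    refine h3 l ?_ y hy hl.1.2
    rw [Finset.mem_filter, PP, Finset.mem_filter, Finset.mem_Ioc]
    exact ⟨⟨⟨hl.1.1, le_trans hl.1.2 hyz.1.2⟩, hl.2⟩, hFD⟩
  · rw [yT, if_neg hc] at hl
    rw [h4 (lt_of_le_of_ne h2 hc)]
    exact Finset.mem_filter.mpr ⟨hl, hFD⟩

end Pool.Agent.Helper17.SO
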